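import Pool.Agent.V11189.CoSober

set_option autoImplicit false

open Set Topology
open Pool.Agent.V11189.AntiHausdorff Pool.Agent.V11189.CoSober

namespace Pool.Agent.Results.MP_8d849c_gt.InfiniteProduct

/-- The index set: the open subsets of the anti-Hausdorff compact space `Z`. -/
def I : Type := {U : Set Z // IsOpen U}

/-- The factor attached to the open set `U` of `Z`: the set `Z` with the topology whose open
sets are the sets `V` such that `U \ V` is finite if `V` meets `U`, and the complement of `V`
is finite if `V` is not contained in `U`. -/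
def Fac (_ : I) : Type := Z

instance (i : I) : TopologicalSpace (Fac i) where
  IsOpen V := ∀ x ∈ (V : Set Z), (x ∈ i.1 → (i.1 \ (V : Set Z)).Finite) ∧
    (x ∉ i.1 → ((V : Set Z)ᶜ).Finite)
  isOpen_univ := by
    intro x _
    constructor
    · intro _
      refine finite_empty.subset ?_
      rintro a ⟨_, ha⟩
      exact ha trivial
    · intro _
      refine finite_empty.subset ?_
      intro a ha
      exact ha trivial
  isOpen_inter := by
    intro V W hV hW x hx
    constructor
    · intro hxU
      refine (((hV x hx.1).1 hxU).union ((hW x hx.2).1 hxU)).subset ?_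
      rintro a ⟨haU, ha⟩
      by_cases haV : a ∈ (V : Set Z)
      · exact Or.inr ⟨haU, fun haW => ha ⟨haV, haW⟩⟩
      · exact Or.inl ⟨haU, haV⟩
    · intro hxU
      refine (((hV x hx.1).2 hxU).union ((hW x hx.2).2 hxU)).subset ?_
      intro a ha
      by_cases haV : a ∈ (V : Set Z)
      · exact Or.inr fun haW => ha ⟨haV, haW⟩
      · exact Or.inl haV
  isOpen_sUnion := by
    rintro T hT x ⟨V, hV, hx⟩
    constructor
    · intro hxU
      refine ((hT V hV x hx).1 hxU).subset ?_
      rintro a ⟨haU, ha⟩
      exact ⟨haU, fun haV => ha ⟨V, hV, haV⟩⟩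
    · intro hxU
      refine ((hT V hV x hx).2 hxU).subset ?_
      intro a ha haV
      exact ha ⟨V, hV, haV⟩

theorem isOpen_fac {i : I} {V : Set (Fac i)} : IsOpen V ↔
    ∀ x ∈ (V : Set Z), (x ∈ i.1 → (i.1 \ (V : Set Z)).Finite) ∧
      (x ∉ i.1 → ((V : Set Z)ᶜ).Finite) := Iff.rfl

instance (i : I) : T1Space (Fac i) := by
  constructor
  intro x
  rw [← isOpen_compl_iff, isOpen_fac]
  intro y _
  have hfin : (({x} : Set (Fac i))ᶜ : Set Z)ᶜ.Finite := by
    refine (finite_singleton (x : Z)).subset ?_
    intro a ha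
    by_contra h
    exact ha h
  exact ⟨fun _ => hfin.subset fun a ha => ha.2, fun _ => hfin⟩

theorem all_compact (i : I) (A : Set (Fac i)) : IsCompact A := by
  classical
  apply isCompact_of_finite_subcover
  intro ι V hV hA
  -- it is enough to cover all but finitely many points
  have key : ∀ j : ι, (A \ V j).Finite → ∃ t : Finset ι, A ⊆ ⋃ k ∈ t, V k := by
    intro j hj
    have hex : ∀ a ∈ A \ V j, ∃ k, a ∈ V k := fun a ha => by simpa using hA ha.1
    have : Nonempty ι := ⟨j⟩
    choose! φ hφ using hex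
    refine ⟨insert j (hj.toFinset.image φ), fun a ha => ?_⟩
    rw [mem_iUnion₂]
    by_cases haj : a ∈ V j
    · exact ⟨j, Finset.mem_insert_self _ _, haj⟩
    · refine ⟨φ a, Finset.mem_insert_of_mem (Finset.mem_image_of_mem _ ?_), hφ a ⟨ha, haj⟩⟩
      exact hj.mem_toFinset.2 ⟨ha, haj⟩
  by_cases hsub : ∀ a ∈ A, (a : Z) ∈ i.1
  · by_cases hne : A.Nonempty
    · obtain ⟨a, ha⟩ := hne
      obtain ⟨j, hj⟩ := mem_iUnion.1 (hA ha)
      apply key j
      refine ((isOpen_fac.1 (hV j) a hj).1 (hsub a ha)).subset ?_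
      rintro b ⟨hb, hbj⟩
      exact ⟨hsub b hb, hbj⟩
    · rw [not_nonempty_iff_eq_empty] at hne
      exact ⟨∅, by simp [hne]⟩
  · push Not at hsub
    obtain ⟨a, ha, hai⟩ := hsub
    obtain ⟨j, hj⟩ := mem_iUnion.1 (hA ha)
    apply key j
    refine ((isOpen_fac.1 (hV j) a hj).2 hai).subset ?_
    rintro b ⟨_, hbj⟩
    exact hbj

/-- The diagonal embedding of `Z` in the product. -/
def diag (z : Z) : ∀ i : I, Fac i := fun _ => z

theorem isInducing_diag : IsInducing diag := by
  rw [isInducing_iff_nhds]
  intro z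
  apply le_antisymm
  · rw [← Filter.tendsto_iff_comap]
    have hcont : Continuous diag := by
      apply continuous_pi
      intro i
      rw [continuous_def]
      intro V hV
      rw [isOpen_Z]
      intro A hA hfA
      have h1 := isOpen_fac.1 hV (Pool.Agent.V11189.AntiHausdorff.f A) hfA
      by_cases hi : (Pool.Agent.V11189.AntiHausdorff.f A : Z) ∈ i.1
      · have h2 := isOpen_Z.1 i.2 A hA hi
        refine (h2.union (h1.1 hi)).subset ?_
        rintro a ⟨haA, haV⟩
        by_cases hai : (a : Z) ∈ i.1
        · exact Or.inr ⟨hai, haV⟩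
        · exact Or.inl ⟨haA, hai⟩
      · refine (h1.2 hi).subset ?_
        rintro a ⟨_, haV⟩
        exact haV
    exact hcont.continuousAt
  · intro S hS
    obtain ⟨U, hUS, hU, hzU⟩ := mem_nhds_iff.1 hS
    let i : I := ⟨U, hU⟩
    rw [Filter.mem_comap]
    let U' : Set (Fac i) := U
    have hUi : IsOpen U' := by
      rw [isOpen_fac]
      intro x hx
      constructor
      · intro _
        refine finite_empty.subset ?_
        rintro a ⟨h1, h2⟩
        exact h2 h1
      · intro h
        exact absurd hx h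
    have hc : Continuous (fun p : ∀ i : I, Fac i => p i) := continuous_apply i
    refine ⟨{p | (p i : Z) ∈ U}, (hUi.preimage hc).mem_nhds hzU, fun w hw => hUS hw⟩

/-- **Products of co-sober spaces need not be co-sober.** -/
theorem result : ∃ (I : Type) (X : I → Type) (_ : ∀ i, TopologicalSpace (X i)),
    (∀ i, IsCoSober (X i)) ∧ ¬ IsCoSober (∀ i, X i) := by
  refine ⟨I, Fac, inferInstance, fun i => coSober_of_all_compact (all_compact i), ?_⟩
  rintro ⟨_, h⟩
  have hG : IsKIrreducible (range diag) := by
    refine ⟨⟨range_nonempty _, isCompact_range isInducing_diag.continuous, sat_of_t1 _⟩, ?_⟩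
    intro K₁ K₂ h1 h2 hu
    have hs1 : K₁ ⊆ range diag := by rw [hu]; exact subset_union_left
    have hs2 : K₂ ⊆ range diag := by rw [hu]; exact subset_union_right
    have hc1 : IsCompact (diag ⁻¹' K₁) := (isInducing_diag.isCompact_preimage_iff hs1).2 h1.2.1
    have hc2 : IsCompact (diag ⁻¹' K₂) := (isInducing_diag.isCompact_preimage_iff hs2).2 h2.2.1
    have hun : diag ⁻¹' K₁ ∪ diag ⁻¹' K₂ = univ := by
      rw [← preimage_union, ← hu, preimage_range]
    rcases not_union hc1 hc2 hun with h3 | h3
    · left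
      apply Subset.antisymm _ hs1
      rintro _ ⟨z, rfl⟩
      have : z ∈ diag ⁻¹' K₁ := by rw [h3]; trivial
      exact this
    · right
      apply Subset.antisymm _ hs2
      rintro _ ⟨z, rfl⟩
      have : z ∈ diag ⁻¹' K₂ := by rw [h3]; trivial
      exact this
  obtain ⟨k, hk⟩ := h _ hG
  rw [up_t1] at hk
  obtain ⟨a, b, hab⟩ := exists_pair_ne Z
  have ha : diag a = k := by
    have : diag a ∈ range diag := ⟨a, rfl⟩
    rwa [hk] at this
  have hb : diag b = k := by
    have : diag b ∈ range diag := ⟨b, rfl⟩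
    rwa [hk] at this
  have hdd := congrFun (ha.trans hb.symm) (⟨univ, isOpen_univ⟩ : I)
  exact hab hdd

end Pool.Agent.Results.MP_8d849c_gt.InfiniteProduct
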